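import Pool.Agent.QSB.StmtsC

/-! # Squad QSB, row GRN: the graded part of a family of matrices (port of Helper17_QSN/GRN) -/

set_option autoImplicit false

namespace Pool.Agent.QSB.H16

open Matrix Finset Pool.Agent.QSX Pool.Agent.QSN Pool.Agent.QSB

section part

variable {V : Type} {m : ℕ} {F : Type} [Field F] (P : V → Fin m → ℝ) (ρ : V → ℝ)

theorem part_pos (x : Matrix (Fin m) (Fin m) F) (i l : Fin m) (h : ∀ a, P a i - P a l = ρ a) :
    part P ρ x i l = x i l := by
  classical
  unfold part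
  exact if_pos h

theorem part_neg (x : Matrix (Fin m) (Fin m) F) (i l : Fin m) (h : ¬ ∀ a, P a i - P a l = ρ a) :
    part P ρ x i l = 0 := by
  classical
  unfold part
  exact if_neg h

theorem part_zero : part P ρ (0 : Matrix (Fin m) (Fin m) F) = 0 := by
  ext i l
  by_cases h : ∀ a, P a i - P a l = ρ a
  · rw [part_pos P ρ _ i l h]
  · rw [part_neg P ρ _ i l h]; rfl

theorem part_add (x y : Matrix (Fin m) (Fin m) F) :
    part P ρ (x + y) = part P ρ x + part P ρ y := by
  ext i l
  by_cases h : ∀ a, P a i - P a l = ρ a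
  · rw [Matrix.add_apply, part_pos P ρ _ i l h, part_pos P ρ _ i l h, part_pos P ρ _ i l h,
      Matrix.add_apply]
  · rw [Matrix.add_apply, part_neg P ρ _ i l h, part_neg P ρ _ i l h, part_neg P ρ _ i l h,
      add_zero]

theorem part_sub (x y : Matrix (Fin m) (Fin m) F) :
    part P ρ (x - y) = part P ρ x - part P ρ y := by
  ext i l
  by_cases h : ∀ a, P a i - P a l = ρ a
  · rw [Matrix.sub_apply, part_pos P ρ _ i l h, part_pos P ρ _ i l h, part_pos P ρ _ i l h,
      Matrix.sub_apply]
  · rw [Matrix.sub_apply, part_neg P ρ _ i l h, part_neg P ρ _ i l h, part_neg P ρ _ i l h,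
      sub_zero]

theorem part_smul [Algebra ℝ F] (c : ℝ) (x : Matrix (Fin m) (Fin m) F) :
    part P ρ (c • x) = c • part P ρ x := by
  ext i l
  by_cases h : ∀ a, P a i - P a l = ρ a
  · rw [Matrix.smul_apply, part_pos P ρ _ i l h, part_pos P ρ _ i l h, Matrix.smul_apply]
  · rw [Matrix.smul_apply, part_neg P ρ _ i l h, part_neg P ρ _ i l h, smul_zero]

theorem part_list {T : Type} (L : List T) (f : T → Matrix (Fin m) (Fin m) F) :
    part P ρ (L.map f).sum = (L.map fun t => part P ρ (f t)).sum := by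
  induction L with
  | nil => simp only [List.map_nil, List.sum_nil]; exact part_zero P ρ
  | cons t L ih => simp only [List.map_cons, List.sum_cons]; rw [part_add, ih]

end part

theorem indepG {V : Type} [AddCommGroup V] [Module ℝ V] (r r' : V →ₗ[ℝ] ℝ)
    (h1 : ∀ c : ℝ, r ≠ c • r') (h2 : ∀ c : ℝ, r' ≠ c • r) (s t s' t' : ℝ)
    (h : ∀ a, s * r a + t * r' a = s' * r a + t' * r' a) : s = s' ∧ t = t' := by
  have hs : s = s' := by
    by_contra hne
    have hne' : s - s' ≠ 0 := sub_ne_zero.2 hne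
    refine h1 ((t' - t) / (s - s')) (LinearMap.ext fun a => ?_)
    rw [LinearMap.smul_apply, smul_eq_mul, div_mul_eq_mul_div, eq_div_iff hne']
    linarith [h a]
  refine ⟨hs, ?_⟩
  by_contra hne
  refine h2 0 (LinearMap.ext fun a => ?_)
  rw [zero_smul, LinearMap.zero_apply]
  have h3 : (t - t') * r' a = 0 := by
    have := h a
    rw [hs] at this
    linarith
  exact (mul_eq_zero.1 h3).resolve_left (sub_ne_zero.2 hne)

theorem np_symm {X : Dat} (hX : MB X) {l l' : hX.ι} (h : hX.Np l l') : hX.Np l' l := by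
  intro c hc
  obtain ⟨a, ha⟩ := hX.pos
  have h0 : c ≠ 0 := by
    rintro rfl
    have h1 := ha l'
    rw [hc, zero_smul, LinearMap.zero_apply] at h1
    exact lt_irrefl _ h1
  refine h c⁻¹ ?_
  rw [hc, smul_smul, inv_mul_cancel₀ h0, one_smul]

theorem grn (hPMU : PmuStmt) (hPNF : PnfStmt) : GrnStmt := by
  classical
  intro X Y hX F _ _ P hP C hG hTop
  obtain ⟨hC, hC0, hCw, hCbr⟩ := hG
  have h1 : ∀ j : hX.J, ∃ κ : ℝ, 0 < κ ∧ ∃ i k, C (hX.top j) i k ≠ 0 ∧
      ∀ a : X.b, P a i - P a k = κ * hX.rt (hX.top j) a := by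
    intro j
    obtain ⟨i, k, hik⟩ : ∃ i k, C (hX.top j) i k ≠ 0 := by
      by_contra hc
      push Not at hc
      exact hC0 (hX.top j) (Matrix.ext fun i k => hc i k)
    obtain ⟨κ, hκ, h3⟩ := hCw _ i k hik
    exact ⟨κ, hκ, i, k, hik, h3⟩
  choose s hs i0 k0 hne hw using h1
  obtain ⟨κ, hκd⟩ : ∃ κ : hX.J → ℝ, κ = fun j => if hX.One j then s j else 1 := ⟨_, rfl⟩
  have hκ1 : ∀ j, hX.One j → κ j = s j := by
    intro j hj
    rw [hκd]
    exact if_pos hj
  have hκ2 : ∀ j, ¬ hX.One j → κ j = 1 := by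
    intro j hj
    rw [hκd]
    exact if_neg hj
  have hκ : ∀ j, 0 < κ j := by
    intro j
    by_cases hj : hX.One j
    · rw [hκ1 j hj]; exact hs j
    · rw [hκ2 j hj]; exact one_pos
  refine ⟨κ, hκ, fun l => part P (fun a => κ (hX.comp l) * hX.rt l a) (C l), ?_, ?_, ?_, ?_⟩
  · intro l
    exact hPNF X Y F P hP (κ (hX.comp l) • hX.rt l) (C l) (hC l)
  · intro l i k hik
    by_contra hc
    exact hik (part_neg P _ (C l) i k hc)
  · intro l l' hll
    have hind := indepG (hX.rt l) (hX.rt l') hll (np_symm hX hll)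
    have hind' := indepG (hX.rt l') (hX.rt l) (np_symm hX hll) hll
    have hA : ∀ l, ∀ i k, C l i k ≠ 0 → ∃ s : ℝ, ∀ a : X.b, P a i - P a k = s * hX.rt l a := by
      intro l i k hik
      obtain ⟨s, -, hs⟩ := hCw l i k hik
      exact ⟨s, hs⟩
    have h := hPMU X.b Y.m F P (hX.rt l) (hX.rt l') (κ (hX.comp l)) (κ (hX.comp l')) (C l) (C l')
      hind (hA l) (hA l')
    have h' := hPMU X.b Y.m F P (hX.rt l') (hX.rt l) (κ (hX.comp l')) (κ (hX.comp l)) (C l') (C l)
      hind' (hA l') (hA l)
    have e : (fun a : X.b => κ (hX.comp l') * hX.rt l' a + κ (hX.comp l) * hX.rt l a) =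
        fun a : X.b => κ (hX.comp l) * hX.rt l a + κ (hX.comp l') * hX.rt l' a := by
      funext a; exact add_comm _ _
    rw [e] at h'
    change part P (fun a => κ (hX.comp l) * hX.rt l a) (C l) *
        part P (fun a => κ (hX.comp l') * hX.rt l' a) (C l') -
      part P (fun a => κ (hX.comp l') * hX.rt l' a) (C l') *
        part P (fun a => κ (hX.comp l) * hX.rt l a) (C l) = _
    rw [← h, ← h', ← part_sub, hCbr l l' hll]
    unfold MB.br
    rw [part_list]
    refine congrArg List.sum (List.map_congr_left fun t ht => ?_)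
    rw [List.mem_filter] at ht
    obtain ⟨htL, htp⟩ := ht
    have htp' : t.2.1 = 1 ∧ t.2.2.1 = 1 := by simpa using htp
    rw [part_smul]
    obtain ⟨hc1, hc2⟩ := hX.L_comp l l' t htL
    obtain ⟨-, -, hrt⟩ := hX.L_rt l l' t htL
    rw [htp'.1, htp'.2, Nat.cast_one, one_smul, one_smul] at hrt
    have e2 : (fun a : X.b => κ (hX.comp l) * hX.rt l a + κ (hX.comp l') * hX.rt l' a) =
        fun a : X.b => κ (hX.comp t.1) * hX.rt t.1 a := by
      funext a
      rw [← hc1, ← hc2, hrt, LinearMap.add_apply, mul_add]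
    rw [e2]
  · intro l₀
    have hct : hX.comp (hX.top (hX.comp l₀)) = hX.comp l₀ := hX.comp_top l₀
    have hcomp : ∀ t : {t : hX.ι // hX.rt t = hX.rt (hX.top (hX.comp l₀))},
        hX.comp t.1 = hX.comp l₀ := by
      intro t
      have h9 := hX.comp_rt t.1 (hX.top (hX.comp l₀)) 1 ((one_smul ℝ (hX.rt (hX.top
        (hX.comp l₀)))).symm ▸ t.2)
      exact h9.trans hct
    by_cases hj : hX.One (hX.comp l₀)
    · have hr1 : ∀ t, hX.comp t = hX.comp l₀ → t = hX.top (hX.comp l₀) := by
        intro t ht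
        apply hX.rank1 (hX.top (hX.comp l₀))
        · intro l' hl'
          exact hj l' (hl'.trans hct)
        · rw [hct, ht]
      haveI : Subsingleton {t : hX.ι // hX.rt t = hX.rt (hX.top (hX.comp l₀))} := by
        constructor
        intro t t'
        apply Subtype.ext
        rw [hr1 t.1 (hcomp t), hr1 t'.1 (hcomp t')]
      rw [Fintype.linearIndependent_iff]
      intro g hg t
      rw [Fintype.sum_subsingleton _ t] at hg
      rcases smul_eq_zero.1 hg with h0 | h0
      · exact h0
      · exfalso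
        have ht := hr1 t.1 (hcomp t)
        have h2 := congrFun (congrFun h0 (i0 (hX.comp l₀))) (k0 (hX.comp l₀))
        rw [ht] at h2
        change part P (fun a => κ (hX.comp (hX.top (hX.comp l₀))) *
          hX.rt (hX.top (hX.comp l₀)) a) (C (hX.top (hX.comp l₀))) (i0 (hX.comp l₀))
          (k0 (hX.comp l₀)) = 0 at h2
        rw [part_pos] at h2
        · exact hne _ h2
        · intro a
          rw [hct, hκ1 _ hj]
          exact hw _ a
    · have h3 := hTop (hX.comp l₀) hj
      have e3 : (fun t : {t : hX.ι // hX.rt t = hX.rt (hX.top (hX.comp l₀))} =>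
          part P (fun a => κ (hX.comp t.1) * hX.rt t.1 a) (C t.1)) =
          fun t : {t : hX.ι // hX.rt t = hX.rt (hX.top (hX.comp l₀))} =>
          part P (fun a => hX.rt t.1 a) (C t.1) := by
        funext t
        have : (fun a : X.b => κ (hX.comp t.1) * hX.rt t.1 a) = fun a => hX.rt t.1 a := by
          funext a
          rw [hcomp t, hκ2 _ hj, one_mul]
        rw [this]
      rw [e3]
      exact h3

end Pool.Agent.QSB.H16
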