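import Pool.Agent.QSB.StmtsE
import Pool.Agent.Helper60_QSN.OEM

/-!
# QSB, row HEM: `U_(p, p + d) (𝔻)` in `U_(p, p + d + 1) (𝔻)`
-/

set_option autoImplicit false

namespace Pool.Agent.QSB.H16

open Finset Matrix Pool.Agent.QSX Pool.Agent.QSX.H10 Pool.Agent.QSN Pool.Agent.QSN.H60

variable {k : ℕ}

/-- the matrix of the inclusion, scalar blocks -/
noncomputable def EB (k p d : ℕ) :
    Matrix (Fin (2 * p + (d + 1))) (Fin (2 * p + d)) (Matrix (Fin k) (Fin k) ℝ) :=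
  Matrix.of fun a i => if a = ff p d i then 1 else 0

/-- the transposed matrix -/
noncomputable def EC (k p d : ℕ) :
    Matrix (Fin (2 * p + d)) (Fin (2 * p + (d + 1))) (Matrix (Fin k) (Fin k) ℝ) :=
  Matrix.of fun i a => if a = ff p d i then 1 else 0

theorem EB_apply (p d : ℕ) (a : Fin (2 * p + (d + 1))) (i : Fin (2 * p + d)) :
    EB k p d a i = if a = ff p d i then 1 else 0 := rfl

theorem EC_apply (p d : ℕ) (a : Fin (2 * p + (d + 1))) (i : Fin (2 * p + d)) :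
    EC k p d i a = if a = ff p d i then 1 else 0 := rfl

theorem EB_ff (p d : ℕ) (j i : Fin (2 * p + d)) :
    EB k p d (ff p d j) i = if j = i then 1 else 0 := by
  rw [EB_apply]
  by_cases h : j = i
  · rw [if_pos (congrArg (ff p d) h), if_pos h]
  · rw [if_neg (fun h' => h (ff_inj h')), if_neg h]

theorem EC_ff (p d : ℕ) (j i : Fin (2 * p + d)) :
    EC k p d i (ff p d j) = if j = i then 1 else 0 := by
  rw [EC_apply]
  by_cases h : j = i
  · rw [if_pos (congrArg (ff p d) h), if_pos h]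
  · rw [if_neg (fun h' => h (ff_inj h')), if_neg h]

theorem EC_EB (p d : ℕ) : EC k p d * EB k p d = 1 := by
  ext i j : 2
  rw [Matrix.mul_apply, Finset.sum_eq_single (ff p d j)]
  · rw [EB_ff, EC_ff, if_pos rfl, mul_one, Matrix.one_apply]
    by_cases h : i = j
    · rw [if_pos h.symm, if_pos h]
    · rw [if_neg (fun h' => h h'.symm), if_neg h]
  · intro b _ hb
    rw [EB_apply p d b j, if_neg hb, mul_zero]
  · intro h
    exact absurd (Finset.mem_univ _) h

/-- the embedding of matrices of blocks -/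
noncomputable def TB (k p d : ℕ) :
    Matrix (Fin (2 * p + d)) (Fin (2 * p + d)) (Matrix (Fin k) (Fin k) ℝ) →ₗ[ℝ]
    Matrix (Fin (2 * p + (d + 1))) (Fin (2 * p + (d + 1))) (Matrix (Fin k) (Fin k) ℝ) where
  toFun x := EB k p d * x * EC k p d
  map_add' := by
    intro x y
    rw [Matrix.mul_add, Matrix.add_mul]
  map_smul' := by
    intro r x
    rw [RingHom.id_apply, Matrix.mul_smul, Matrix.smul_mul]

theorem TB_apply (p d : ℕ)
    (x : Matrix (Fin (2 * p + d)) (Fin (2 * p + d)) (Matrix (Fin k) (Fin k) ℝ)) :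
    TB k p d x = EB k p d * x * EC k p d := rfl

theorem TB_ff (p d : ℕ)
    (x : Matrix (Fin (2 * p + d)) (Fin (2 * p + d)) (Matrix (Fin k) (Fin k) ℝ))
    (i j : Fin (2 * p + d)) : TB k p d x (ff p d i) (ff p d j) = x i j := by
  rw [TB_apply, Matrix.mul_apply, Finset.sum_eq_single j]
  · rw [EC_ff, if_pos rfl, mul_one, Matrix.mul_apply, Finset.sum_eq_single i]
    · rw [EB_ff, if_pos rfl, one_mul]
    · intro b _ hb
      rw [EB_ff, if_neg (fun h => hb h.symm), zero_mul]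
    · intro h
      exact absurd (Finset.mem_univ _) h
  · intro b _ hb
    rw [EC_ff, if_neg (fun h => hb h.symm), mul_zero]
  · intro h
    exact absurd (Finset.mem_univ _) h

theorem TB_l (p d : ℕ)
    (x : Matrix (Fin (2 * p + d)) (Fin (2 * p + d)) (Matrix (Fin k) (Fin k) ℝ))
    (b : Fin (2 * p + (d + 1))) : TB k p d x (e0 p d) b = 0 := by
  rw [TB_apply, Matrix.mul_assoc, Matrix.mul_apply]
  refine Finset.sum_eq_zero fun i _ => ?_
  rw [EB_apply, if_neg (ff_ne_e0 i), zero_mul]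

theorem TB_r (p d : ℕ)
    (x : Matrix (Fin (2 * p + d)) (Fin (2 * p + d)) (Matrix (Fin k) (Fin k) ℝ))
    (b : Fin (2 * p + (d + 1))) : TB k p d x b (e0 p d) = 0 := by
  rw [TB_apply, Matrix.mul_apply]
  refine Finset.sum_eq_zero fun i _ => ?_
  rw [EC_apply, if_neg (ff_ne_e0 i), mul_zero]

theorem TB_mul (p d : ℕ)
    (x y : Matrix (Fin (2 * p + d)) (Fin (2 * p + d)) (Matrix (Fin k) (Fin k) ℝ)) :
    TB k p d (x * y) = TB k p d x * TB k p d y := by
  rw [TB_apply, TB_apply, TB_apply]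
  calc EB k p d * (x * y) * EC k p d = EB k p d * x *
        (1 : Matrix (Fin (2 * p + d)) (Fin (2 * p + d)) (Matrix (Fin k) (Fin k) ℝ)) *
        (y * EC k p d) := by
        rw [Matrix.mul_one]
        simp only [Matrix.mul_assoc]
    _ = EB k p d * x * (EC k p d * EB k p d) * (y * EC k p d) := by rw [EC_EB]
    _ = EB k p d * x * EC k p d * (EB k p d * y * EC k p d) := by simp only [Matrix.mul_assoc]

theorem TB_inj (p d : ℕ)
    {x y : Matrix (Fin (2 * p + d)) (Fin (2 * p + d)) (Matrix (Fin k) (Fin k) ℝ)}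
    (h : TB k p d x = TB k p d y) : x = y := by
  ext i j : 2
  rw [← TB_ff p d x i j, h, TB_ff]

theorem dia_br {n : ℕ} (c : Fin n → ℝ)
    (x : Matrix (Fin n) (Fin n) (Matrix (Fin k) (Fin k) ℝ)) (i j : Fin n) :
    (dia k c * x - x * dia k c) i j = (c i - c j) • x i j := by
  rw [Matrix.sub_apply, dia, Matrix.diagonal_mul, Matrix.mul_diagonal, Matrix.smul_mul,
    Matrix.mul_smul, Matrix.one_mul, Matrix.mul_one, sub_smul]

theorem TB_dia (p d : ℕ) (c : Fin (2 * p + d) → ℝ)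
    (x : Matrix (Fin (2 * p + d)) (Fin (2 * p + d)) (Matrix (Fin k) (Fin k) ℝ)) :
    TB k p d (dia k c * x - x * dia k c) =
      dia k (PP p d c) * TB k p d x - TB k p d x * dia k (PP p d c) := by
  ext a b : 2
  rw [dia_br]
  rcases ff_cases a with rfl | ⟨i, rfl⟩
  · rw [TB_l, TB_l, smul_zero]
  · rcases ff_cases b with rfl | ⟨j, rfl⟩
    · rw [TB_r, TB_r, smul_zero]
    · rw [TB_ff, TB_ff, dia_br, PP_ff, PP_ff]

theorem TB_mem (p d : ℕ) (𝔻 : Subalgebra ℝ (Matrix (Fin k) (Fin k) ℝ))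
    (x : Matrix (Fin (2 * p + d)) (Fin (2 * p + d)) (Matrix (Fin k) (Fin k) ℝ))
    (hx : x ∈ nH p d 𝔻) : TB k p d x ∈ nH p (d + 1) 𝔻 := by
  obtain ⟨⟨h0, h1⟩, h2, h3⟩ := hx
  refine ⟨⟨?_, ?_⟩, ?_, ?_⟩
  · intro a b
    rcases ff_cases a with rfl | ⟨i, rfl⟩
    · rw [TB_l]; exact 𝔻.zero_mem
    · rcases ff_cases b with rfl | ⟨j, rfl⟩
      · rw [TB_r]; exact 𝔻.zero_mem
      · rw [TB_ff]
        exact h0 i j
  · intro a b hab
    rcases ff_cases a with rfl | ⟨i, rfl⟩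
    · exact TB_l p d x b
    · rcases ff_cases b with rfl | ⟨j, rfl⟩
      · exact TB_r p d x _
      · rw [TB_ff]
        exact h1 i j (ff_le.1 hab)
  · intro a b
    rcases ff_cases a with rfl | ⟨i, rfl⟩
    · rw [sg_e0, TB_r, TB_l, Matrix.transpose_zero, neg_zero]
    · rcases ff_cases b with rfl | ⟨j, rfl⟩
      · rw [sg_e0, TB_r, TB_l, Matrix.transpose_zero, neg_zero]
      · rw [sg_ff, sg_ff, TB_ff, TB_ff]
        exact h2 i j
  · intro a b ha hb
    rcases ff_cases a with rfl | ⟨i, rfl⟩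
    · exact TB_l p d x b
    · rcases ff_cases b with rfl | ⟨j, rfl⟩
      · exact TB_r p d x _
      · rw [TB_ff]
        exact h3 i j ((md_ff i).1 ha) ((md_ff j).1 hb)

/-- the linear map on `n` -/
noncomputable def TH (p d : ℕ) (𝔻 : Subalgebra ℝ (Matrix (Fin k) (Fin k) ℝ)) :
    (datH p d 𝔻).n →ₗ[ℝ] Matrix (Fin ((2 * p + (d + 1)) * k)) (Fin ((2 * p + (d + 1)) * k)) ℝ :=
  (blk k (2 * p + (d + 1))).toLinearMap.comp ((TB k p d).comp
    ((blk k (2 * p + d)).symm.toLinearMap.comp (datH p d 𝔻).n.subtype))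

theorem TH_blk (p d : ℕ) (𝔻 : Subalgebra ℝ (Matrix (Fin k) (Fin k) ℝ))
    (x : Matrix (Fin (2 * p + d)) (Fin (2 * p + d)) (Matrix (Fin k) (Fin k) ℝ))
    (hx : blk k (2 * p + d) x ∈ (datH p d 𝔻).n) :
    TH p d 𝔻 ⟨blk k (2 * p + d) x, hx⟩ = blk k (2 * p + (d + 1)) (TB k p d x) := by
  show blk k (2 * p + (d + 1)) (TB k p d ((blk k (2 * p + d)).symm (blk k (2 * p + d) x))) = _
  rw [AlgEquiv.symm_apply_apply]

theorem TH_mem (p d : ℕ) (𝔻 : Subalgebra ℝ (Matrix (Fin k) (Fin k) ℝ)) (x : (datH p d 𝔻).n) :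
    TH p d 𝔻 x ∈ (datH p (d + 1) 𝔻).n := by
  obtain ⟨_, x, hx, rfl⟩ := x
  exact ⟨TB k p d x, TB_mem p d 𝔻 x hx, TH_blk p d 𝔻 x ⟨x, hx, rfl⟩⟩

theorem TH_inj (p d : ℕ) (𝔻 : Subalgebra ℝ (Matrix (Fin k) (Fin k) ℝ)) :
    Function.Injective (TH p d 𝔻) := by
  rintro ⟨_, x, hx, rfl⟩ ⟨_, y, hy, rfl⟩ h
  rw [TH_blk, TH_blk] at h
  have h1 := TB_inj p d ((blk k (2 * p + (d + 1))).injective h)
  rw [Subtype.mk.injEq, h1]

theorem embH (p d : ℕ) (hk : 0 < k) (𝔻 : Subalgebra ℝ (Matrix (Fin k) (Fin k) ℝ)) :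
    AlgEmb (datH p d 𝔻) (datH p (d + 1) 𝔻) := by
  refine ⟨TH p d 𝔻, (cstL k (2 * p + (d + 1))).comp ((PP p d).comp ((rd hk).comp
    (datH p d 𝔻).b.subtype)), TH_mem p d 𝔻, ?_, TH_inj p d 𝔻, ?_, ?_, ?_⟩
  · rintro ⟨_, c, hc, rfl⟩
    refine ⟨PP p d c, ?_, ?_⟩
    · intro a
      rcases ff_cases a with rfl | ⟨i, rfl⟩
      · rw [sg_e0, PP_e0, neg_zero]
      · rw [sg_ff, PP_ff, PP_ff]
        exact hc i
    · show cst k (2 * p + (d + 1)) (PP p d (rd hk (cst k (2 * p + d) c))) = _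
      rw [rd_cst]
  · rintro ⟨_, c, hc, rfl⟩ ⟨_, c', hc', rfl⟩ h
    have h1 : PP p d (rd hk (cst k (2 * p + d) c)) = PP p d (rd hk (cst k (2 * p + d) c')) :=
      cst_inj hk h
    rw [rd_cst, rd_cst] at h1
    have h2 := PP_inj p d h1
    rw [Subtype.mk.injEq, h2]
  · rintro ⟨_, x, hx, rfl⟩ ⟨_, y, hy, rfl⟩
    have hs : ∀ x : Matrix (Fin (2 * p + d)) (Fin (2 * p + d)) (Matrix (Fin k) (Fin k) ℝ),
      (blk k (2 * p + d)).symm (blk k (2 * p + d) x) = x :=
      fun x => (blk k (2 * p + d)).symm_apply_apply x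
    show blk k (2 * p + (d + 1)) (TB k p d ((blk k (2 * p + d)).symm
        (blk k (2 * p + d) x * blk k (2 * p + d) y - blk k (2 * p + d) y *
        blk k (2 * p + d) x))) =
      blk k (2 * p + (d + 1)) (TB k p d ((blk k (2 * p + d)).symm (blk k (2 * p + d) x))) *
        blk k (2 * p + (d + 1)) (TB k p d ((blk k (2 * p + d)).symm (blk k (2 * p + d) y))) -
      blk k (2 * p + (d + 1)) (TB k p d ((blk k (2 * p + d)).symm (blk k (2 * p + d) y))) *
        blk k (2 * p + (d + 1)) (TB k p d ((blk k (2 * p + d)).symm (blk k (2 * p + d) x)))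
    rw [← map_mul, ← map_mul, ← map_sub, hs, hs, hs, map_sub, TB_mul, TB_mul, map_sub, map_mul,
      map_mul]
  · rintro ⟨_, c, hc, rfl⟩ ⟨_, x, hx, rfl⟩
    have hs : ∀ x : Matrix (Fin (2 * p + d)) (Fin (2 * p + d)) (Matrix (Fin k) (Fin k) ℝ),
      (blk k (2 * p + d)).symm (blk k (2 * p + d) x) = x :=
      fun x => (blk k (2 * p + d)).symm_apply_apply x
    show blk k (2 * p + (d + 1)) (TB k p d ((blk k (2 * p + d)).symm
        (diagonal (cst k (2 * p + d) c) * blk k (2 * p + d) x - blk k (2 * p + d) x *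
        diagonal (cst k (2 * p + d) c)))) =
      diagonal (cst k (2 * p + (d + 1)) (PP p d (rd hk (cst k (2 * p + d) c)))) *
        blk k (2 * p + (d + 1)) (TB k p d ((blk k (2 * p + d)).symm (blk k (2 * p + d) x))) -
      blk k (2 * p + (d + 1)) (TB k p d ((blk k (2 * p + d)).symm (blk k (2 * p + d) x))) *
        diagonal (cst k (2 * p + (d + 1)) (PP p d (rd hk (cst k (2 * p + d) c))))
    rw [rd_cst, ← blk_dia, ← blk_dia, ← map_mul, ← map_mul, ← map_sub, hs, hs, TB_dia, map_sub,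
      map_mul, map_mul]

theorem rankH (p d : ℕ) (hk : 0 < k) (𝔻 : Subalgebra ℝ (Matrix (Fin k) (Fin k) ℝ)) :
    Module.finrank ℝ (datH p d 𝔻).b = p := by
  let φ : (datH p d 𝔻).b →ₗ[ℝ] (datO p d).b :=
    ((rd hk).comp (datH p d 𝔻).b.subtype).codRestrict (datO p d).b (by
      rintro ⟨_, c, hc, rfl⟩
      show ∀ i, rd hk (cst k (2 * p + d) c) (sg p d i) = - rd hk (cst k (2 * p + d) c) i
      rw [rd_cst]
      exact hc)
  have hinj : Function.Injective φ := by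
    rintro ⟨_, c, hc, rfl⟩ ⟨_, c', hc', rfl⟩ h
    have h1 : rd hk (cst k (2 * p + d) c) = rd hk (cst k (2 * p + d) c') :=
      congrArg Subtype.val h
    rw [rd_cst, rd_cst] at h1
    rw [Subtype.mk.injEq, h1]
  have hsur : Function.Surjective φ := by
    rintro ⟨c, hc⟩
    refine ⟨⟨cst k (2 * p + d) c, c, hc, rfl⟩, ?_⟩
    apply Subtype.ext
    exact rd_cst hk c
  rw [LinearEquiv.finrank_eq (LinearEquiv.ofBijective φ ⟨hinj, hsur⟩), rank]

theorem dimsH (p d : ℕ) (hk : 0 < k) (hp : 1 ≤ p)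
    (𝔻 : Subalgebra ℝ (Matrix (Fin k) (Fin k) ℝ)) :
    Module.finrank ℝ (datH p d 𝔻).n < Module.finrank ℝ (datH p (d + 1) 𝔻).n := by
  set T' : (datH p d 𝔻).n →ₗ[ℝ] (datH p (d + 1) 𝔻).n :=
    (TH p d 𝔻).codRestrict (datH p (d + 1) 𝔻).n (TH_mem p d 𝔻) with hT'
  have hinj : Function.Injective T' := by
    intro x y h
    exact TH_inj p d 𝔻 (congrArg Subtype.val h)
  by_contra hcon
  push Not at hcon
  have hle := LinearMap.finrank_le_finrank_of_injective hinj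
  have heq := le_antisymm hle hcon
  have hsur := (LinearMap.injective_iff_surjective_of_finrank_eq_finrank heq).1 hinj
  obtain ⟨z0, hz0⟩ : ∃ z0 : Fin (2 * p + (d + 1)), (z0 : ℕ) = 0 := ⟨⟨0, by omega⟩, rfl⟩
  have hz0m : ¬ Md p (d + 1) z0 := by
    unfold Md
    omega
  have hz0r : ¬ Md p (d + 1) (Fin.rev z0) := fun h => hz0m (md_rev.1 h)
  have hrv : ((Fin.rev z0 : Fin (2 * p + (d + 1))) : ℕ) = 2 * p + d := by
    rw [Fin.val_rev, hz0]
    omega
  have he0 : (e0 p d : ℕ) = p + d := rfl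
  have hsz : sg p (d + 1) z0 = Fin.rev z0 := sg_out hz0m
  have hsr : sg p (d + 1) (Fin.rev z0) = z0 := by rw [← hsz, sg_sg]
  set y : Matrix (Fin (2 * p + (d + 1))) (Fin (2 * p + (d + 1))) (Matrix (Fin k) (Fin k) ℝ) :=
    Matrix.of fun a b : Fin (2 * p + (d + 1)) =>
      (if a = z0 ∧ b = e0 p d then (1 : Matrix (Fin k) (Fin k) ℝ) else 0) -
        (if a = e0 p d ∧ b = Fin.rev z0 then 1 else 0) with hy
  have hmem : y ∈ nH p (d + 1) 𝔻 := by
    refine ⟨⟨?_, ?_⟩, ?_, ?_⟩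
    · intro a b
      show (if a = z0 ∧ b = e0 p d then (1 : Matrix (Fin k) (Fin k) ℝ) else 0) -
        (if a = e0 p d ∧ b = Fin.rev z0 then 1 else 0) ∈ 𝔻
      refine 𝔻.sub_mem ?_ ?_
      · split_ifs
        · exact 𝔻.one_mem
        · exact 𝔻.zero_mem
      · split_ifs
        · exact 𝔻.one_mem
        · exact 𝔻.zero_mem
    · intro a b hab
      show (if a = z0 ∧ b = e0 p d then (1 : Matrix (Fin k) (Fin k) ℝ) else 0) -
        (if a = e0 p d ∧ b = Fin.rev z0 then 1 else 0) = 0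
      rw [if_neg, if_neg, sub_zero]
      · rintro ⟨rfl, rfl⟩
        rw [Fin.le_def, hrv, he0] at hab
        omega
      · rintro ⟨rfl, rfl⟩
        rw [Fin.le_def, hz0, he0] at hab
        omega
    · intro a b
      show (if sg p (d + 1) b = z0 ∧ sg p (d + 1) a = e0 p d then
        (1 : Matrix (Fin k) (Fin k) ℝ) else 0) -
        (if sg p (d + 1) b = e0 p d ∧ sg p (d + 1) a = Fin.rev z0 then 1 else 0) =
        -((if a = z0 ∧ b = e0 p d then (1 : Matrix (Fin k) (Fin k) ℝ) else 0) -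
        (if a = e0 p d ∧ b = Fin.rev z0 then 1 else 0))ᵀ
      have hs : ∀ u v : Fin (2 * p + (d + 1)), sg p (d + 1) u = v ↔ u = sg p (d + 1) v := by
        intro u v
        constructor
        · rintro rfl
          rw [sg_sg]
        · rintro rfl
          rw [sg_sg]
      have e1 : (sg p (d + 1) b = z0 ∧ sg p (d + 1) a = e0 p d) ↔
          (a = e0 p d ∧ b = Fin.rev z0) := by
        rw [hs b z0, hs a (e0 p d), hsz, sg_e0, and_comm]
      have e2 : (sg p (d + 1) b = e0 p d ∧ sg p (d + 1) a = Fin.rev z0) ↔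
          (a = z0 ∧ b = e0 p d) := by
        rw [hs b (e0 p d), hs a (Fin.rev z0), hsr, sg_e0, and_comm]
      rw [if_congr e1 rfl rfl, if_congr e2 rfl rfl, Matrix.transpose_sub]
      have t1 : ∀ q : Prop, ∀ _ : Decidable q,
          ((if q then (1 : Matrix (Fin k) (Fin k) ℝ) else 0)ᵀ = if q then 1 else 0) := by
        intro q _
        split_ifs
        · exact Matrix.transpose_one
        · exact Matrix.transpose_zero
      rw [t1, t1]
      abel
    · intro a b ha hb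
      show (if a = z0 ∧ b = e0 p d then (1 : Matrix (Fin k) (Fin k) ℝ) else 0) -
        (if a = e0 p d ∧ b = Fin.rev z0 then 1 else 0) = 0
      rw [if_neg, if_neg, sub_zero]
      · rintro ⟨rfl, rfl⟩
        exact hz0r hb
      · rintro ⟨rfl, rfl⟩
        exact hz0m ha
  obtain ⟨⟨_, x, hx, rfl⟩, hxy⟩ := hsur ⟨blk k (2 * p + (d + 1)) y, y, hmem, rfl⟩
  have h1 : TH p d 𝔻 ⟨blk k (2 * p + d) x, x, hx, rfl⟩ = blk k (2 * p + (d + 1)) y :=
    congrArg Subtype.val hxy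
  rw [TH_blk] at h1
  have h2 := congrFun (congrFun ((blk k (2 * p + (d + 1))).injective h1) z0) (e0 p d)
  rw [TB_r, hy, Matrix.of_apply, if_pos ⟨rfl, rfl⟩, if_neg, sub_zero] at h2
  · have h3 := congrFun (congrFun h2 ⟨0, hk⟩) ⟨0, hk⟩
    rw [Matrix.zero_apply, Matrix.one_apply_eq] at h3
    exact zero_ne_one h3
  · rintro ⟨h3, -⟩
    have h4 := congrArg Fin.val h3
    rw [hz0, he0] at h4
    omega

/-- **HEM** -/
theorem hem : HemStmt := fun p d _ 𝔻 hk hp => ⟨embH p d hk 𝔻, rankH p d hk 𝔻, dimsH p d hk hp 𝔻⟩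

end Pool.Agent.QSB.H16
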