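import Pool.Agent.QSB.StmtsS

set_option autoImplicit false

/-!
# Squad QSB, row INT: integrality
-/

namespace Pool.Agent.QSB.H16I

open Matrix Finset Pool.Agent.QSX

/-- the scaled commutator -/
theorem comm_smul {m : ℕ} (s t : ℝ) (x y : Matrix (Fin m) (Fin m) ℝ) :
    (s • x) * (t • y) - (t • y) * (s • x) = (s * t) • (x * y - y * x) := by
  rw [smul_sub, smul_mul_smul_comm, smul_mul_smul_comm, mul_comm t s]

/-- **Row INT.** -/
theorem int (hGWB : GwbStmt) (hTRI : TriStmt) (hSLT : SltStmt) : IntStmt := by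
  intro X S μ ν x z hx hμ hz
  have hN : 0 < ip X μ μ := ip_self_pos hμ
  obtain ⟨hT, htri⟩ := hTRI X S μ x hx
  have hxt : GW S (-μ) xᵀ := (hGWB X S).2.2.1 μ x hx
  have hx0 : x ≠ 0 := hx.2.1
  have hz0 : z ≠ 0 := hz.2.1
  have wx : diagonal (tv X μ : Fin X.m → ℝ) * x - x * diagonal (tv X μ : Fin X.m → ℝ) =
      ip X μ μ • x := by
    rw [hx.2.2 (tv X μ), ip_eq]
  have wxt : diagonal (tv X μ : Fin X.m → ℝ) * xᵀ - xᵀ * diagonal (tv X μ : Fin X.m → ℝ) =
      (-ip X μ μ) • xᵀ := by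
    rw [hxt.2.2 (tv X μ), ip_eq, ip_neg_left]
  have wz : diagonal (tv X μ : Fin X.m → ℝ) * z - z * diagonal (tv X μ : Fin X.m → ℝ) =
      ip X ν μ • z := by
    rw [hz.2.2 (tv X μ), ip_eq]
  set T : ℝ := Matrix.trace (x * xᵀ) with hTd
  set N : ℝ := ip X μ μ with hNd
  set D : Matrix (Fin X.m) (Fin X.m) ℝ := diagonal (tv X μ : Fin X.m → ℝ) with hD
  set s : ℝ := Real.sqrt (2 / (T * N)) with hs
  have hs0 : 0 < s := Real.sqrt_pos.2 (by positivity)
  have hss : s * s = 2 / (T * N) := Real.mul_self_sqrt (by positivity)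
  have e1 : (s • x) * (s • xᵀ) - (s • xᵀ) * (s • x) = (2 / N) • D := by
    rw [comm_smul, htri, smul_smul, hss]
    congr 1
    field_simp
  have e2 : ((2 / N) • D) * (s • x) - (s • x) * ((2 / N) • D) = (2 : ℝ) • (s • x) := by
    rw [comm_smul, wx, smul_smul, smul_smul]
    congr 1
    field_simp
  have e3 : ((2 / N) • D) * (s • xᵀ) - (s • xᵀ) * ((2 / N) • D) = -((2 : ℝ) • (s • xᵀ)) := by
    rw [comm_smul, wxt, smul_smul, smul_smul, ← neg_smul]
    congr 1
    field_simp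
  have e4 : (2 / N) • D ≠ 0 := by
    intro h0
    rw [h0, zero_mul, mul_zero, sub_zero, smul_smul] at e2
    have h2 : (2 * s) • x = 0 := e2.symm
    rcases smul_eq_zero.1 h2 with h3 | h3
    · have : (2 : ℝ) * s ≠ 0 := by positivity
      exact this h3
    · exact hx0 h3
  have e5 : ((2 / N) • D) * z - z * ((2 / N) • D) = (2 * ip X ν μ / N) • z := by
    have h1 : ((2 / N) • D) * z - z * ((2 / N) • D) = (2 / N) • (D * z - z * D) := by
      rw [smul_sub, smul_mul_assoc, mul_smul_comm]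
    rw [h1, wz, smul_smul]
    congr 1
    ring
  have e6 : ∀ y : Matrix (Fin X.m) (Fin X.m) ℝ,
      (s • x) * y - y * (s • x) = s • (x * y - y * x) := by
    intro y
    rw [smul_sub, smul_mul_assoc, mul_smul_comm]
  have e7 : ∀ y : Matrix (Fin X.m) (Fin X.m) ℝ,
      x * (s • y) - (s • y) * x = s • (x * y - y * x) := by
    intro y
    rw [smul_sub, smul_mul_assoc, mul_smul_comm]
  obtain ⟨⟨n, hn⟩, h2, h3⟩ := hSLT X.m ((2 / N) • D) (s • x) (s • xᵀ) z (2 * ip X ν μ / N)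
    e1 e2 e3 e4 hz0 e5
  refine ⟨⟨n, ?_⟩, fun h => ?_, fun h => ?_⟩
  · rw [← hn]
    field_simp
  · intro h0
    refine h2 ?_ ?_
    · rw [div_lt_iff₀ hN]
      linarith
    · rw [e6, h0, smul_zero]
  · intro h0
    refine h3 ?_ ?_
    · rw [h]
      field_simp
    · rw [e6, e6, e7, h0, smul_zero, smul_zero]

end Pool.Agent.QSB.H16I
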