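import Pool.Agent.QSB.StmtsT

set_option autoImplicit false

/-!
# Squad QSB, row MCX: `MRB` of complexifications
-/

namespace Pool.Agent.QSB.H16C

open Matrix Finset Pool.Agent.QSX Pool.Agent.QSX.H10 Pool.Agent.QSN

section maps

/-- the real matrices -/
noncomputable def cr (m : ℕ) :
    Matrix (Fin m) (Fin m) ℝ →ₗ[ℝ] Matrix (Fin (m * 2)) (Fin (m * 2)) ℝ where
  toFun x := blk 2 m (cx x 0)
  map_add' x y := by rw [← map_add, cx_add, add_zero]
  map_smul' r x := by rw [RingHom.id_apply, ← map_smul, cx_smul, smul_zero]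

/-- the imaginary matrices -/
noncomputable def ci (m : ℕ) :
    Matrix (Fin m) (Fin m) ℝ →ₗ[ℝ] Matrix (Fin (m * 2)) (Fin (m * 2)) ℝ where
  toFun x := blk 2 m (cx 0 x)
  map_add' x y := by rw [← map_add, cx_add, add_zero]
  map_smul' r x := by rw [RingHom.id_apply, ← map_smul, cx_smul, smul_zero]

variable {m : ℕ}

theorem cr_apply (x : Matrix (Fin m) (Fin m) ℝ) : cr m x = blk 2 m (cx x 0) := rfl

theorem ci_apply (x : Matrix (Fin m) (Fin m) ℝ) : ci m x = blk 2 m (cx 0 x) := rfl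

theorem blk_cx (x y : Matrix (Fin m) (Fin m) ℝ) : blk 2 m (cx x y) = cr m x + ci m y := by
  rw [cr_apply, ci_apply, ← map_add, cx_add, add_zero, zero_add]

theorem cr_cr (x y : Matrix (Fin m) (Fin m) ℝ) :
    cr m x * cr m y - cr m y * cr m x = cr m (x * y - y * x) := by
  rw [cr_apply, cr_apply, cr_apply, ← map_mul, ← map_mul, ← map_sub, cx_mul, cx_mul, cx_sub]
  simp

theorem ci_cr (x y : Matrix (Fin m) (Fin m) ℝ) :
    ci m x * cr m y - cr m y * ci m x = ci m (x * y - y * x) := by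
  rw [cr_apply, ci_apply, ci_apply, ← map_mul, ← map_mul, ← map_sub, cx_mul, cx_mul, cx_sub]
  simp

theorem cr_ci (x y : Matrix (Fin m) (Fin m) ℝ) :
    cr m x * ci m y - ci m y * cr m x = ci m (x * y - y * x) := by
  rw [cr_apply, ci_apply, ci_apply, ← map_mul, ← map_mul, ← map_sub, cx_mul, cx_mul, cx_sub]
  simp

theorem cri_zero {x y : Matrix (Fin m) (Fin m) ℝ} (h : cr m x + ci m y = 0) : x = 0 ∧ y = 0 := by
  rw [← blk_cx] at h
  have h1 : cx x y = cx 0 0 := by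
    rw [cx_zero]
    exact (blk 2 m).injective (by rw [h, map_zero])
  exact cx_inj h1

theorem climb_aux {a b e : Matrix (Fin m) (Fin m) ℝ}
    (h : (cr m a + ci m b) * cr m e - cr m e * (cr m a + ci m b) = 0) :
    a * e - e * a = 0 ∧ b * e - e * b = 0 := by
  refine cri_zero ?_
  rw [← h, ← cr_cr, ← ci_cr, add_mul, mul_add]
  abel

theorem cri_zero' {a b : Matrix (Fin m) (Fin m) ℝ} (ha : a = 0) (hb : b = 0) :
    cr m a + ci m b = 0 := by
  rw [ha, hb, map_zero, map_zero, add_zero]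

theorem dec_aux {ι : Type} (e : ι → Matrix (Fin m) (Fin m) ℝ)
    (e' : ι × Bool → Matrix (Fin (m * 2)) (Fin (m * 2)) ℝ)
    (hf : ∀ l, e' (l, false) = cr m (e l)) (ht : ∀ l, e' (l, true) = ci m (e l)) (Q : ι → Prop)
    (x : Matrix (Fin (m * 2)) (Fin (m * 2)) ℝ)
    (hx : x ∈ Submodule.span ℝ (e' '' {p | Q p.1})) :
    ∃ a ∈ Submodule.span ℝ (e '' {l | Q l}), ∃ b ∈ Submodule.span ℝ (e '' {l | Q l}),
      x = cr m a + ci m b := by
  have h1 : Submodule.span ℝ (e' '' {p | Q p.1}) ≤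
      (Submodule.span ℝ (e '' {l | Q l})).map (cr m) ⊔
        (Submodule.span ℝ (e '' {l | Q l})).map (ci m) := by
    rw [Submodule.span_le]
    rintro _ ⟨⟨k, b⟩, hkb, rfl⟩
    have hm : e k ∈ Submodule.span ℝ (e '' {l | Q l}) := Submodule.subset_span ⟨k, hkb, rfl⟩
    cases b
    · rw [hf]
      exact Submodule.mem_sup_left ⟨e k, hm, rfl⟩
    · rw [ht]
      exact Submodule.mem_sup_right ⟨e k, hm, rfl⟩
  obtain ⟨_, ⟨a, ha, rfl⟩, _, ⟨b, hb, rfl⟩, rfl⟩ := Submodule.mem_sup.1 (h1 hx)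
  exact ⟨a, ha, b, hb, rfl⟩

theorem cr_diag (c : Fin m → ℝ) : cr m (diagonal c) = diagonal (cst 2 m c) := by
  rw [cr_apply, ← dia_cx, blk_dia]

theorem cr_rat (x : Matrix (Fin m) (Fin m) ℝ) (hx : ∀ i j, ∃ q : ℚ, x i j = (q : ℝ))
    (p q : Fin (m * 2)) : ∃ r : ℚ, cr m x p q = (r : ℝ) := by
  obtain ⟨⟨i, a⟩, rfl⟩ := finProdFinEquiv.surjective p
  obtain ⟨⟨j, b⟩, rfl⟩ := finProdFinEquiv.surjective q
  obtain ⟨q, hq⟩ := hx i j
  rw [cr_apply, blk_apply, cx_apply, hq, Matrix.zero_apply, zero_smul, add_zero, Matrix.smul_apply,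
    Matrix.one_apply]
  by_cases h : a = b
  · exact ⟨q, by rw [if_pos h, smul_eq_mul, mul_one]⟩
  · exact ⟨0, by rw [if_neg h, smul_zero, Rat.cast_zero]⟩

theorem ci_rat (x : Matrix (Fin m) (Fin m) ℝ) (hx : ∀ i j, ∃ q : ℚ, x i j = (q : ℝ))
    (p q : Fin (m * 2)) : ∃ r : ℚ, ci m x p q = (r : ℝ) := by
  obtain ⟨⟨i, a⟩, rfl⟩ := finProdFinEquiv.surjective p
  obtain ⟨⟨j, b⟩, rfl⟩ := finProdFinEquiv.surjective q
  obtain ⟨q, hq⟩ := hx i j
  rw [ci_apply, blk_apply, cx_apply, hq, Matrix.zero_apply, zero_smul, zero_add, Matrix.smul_apply,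
    smul_eq_mul]
  fin_cases a <;> fin_cases b
  · exact ⟨0, by simp [jj]⟩
  · exact ⟨-q, by simp [jj]⟩
  · exact ⟨q, by simp [jj]⟩
  · exact ⟨0, by simp [jj]⟩

theorem span_map' {V W : Type} [AddCommGroup V] [Module ℝ V] [AddCommGroup W] [Module ℝ W]
    (f : V →ₗ[ℝ] W) {S : Set V} {S' : Set W} (h : ∀ z ∈ S, f z ∈ S') {x : V}
    (hx : x ∈ Submodule.span ℝ S) : f x ∈ Submodule.span ℝ S' := by
  have h1 : Submodule.span ℝ S ≤ (Submodule.span ℝ S').comap f :=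
    Submodule.span_le.2 fun z hz => Submodule.subset_span (h z hz)
  exact h1 hx

end maps

/-- the diagonals of the complexification -/
noncomputable def PE (X : Dat) : X.b ≃ₗ[ℝ] X.C.b :=
  LinearEquiv.ofBijective
    ({ toFun := fun c => ⟨cst 2 X.m c.1, ⟨c.1, c.2, rfl⟩⟩
       map_add' := fun _ _ => rfl
       map_smul' := fun _ _ => rfl } : X.b →ₗ[ℝ] X.C.b)
    ⟨fun x y h => Subtype.ext (cst_inj (by norm_num) (congrArg Subtype.val h)), by
      rintro ⟨_, d, hd, rfl⟩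
      exact ⟨⟨d, hd⟩, rfl⟩⟩

theorem PE_val (X : Dat) (d : X.b) : (PE X d : Fin X.C.m → ℝ) = cst 2 X.m d.1 := rfl

/-- functionals on the diagonals of the complexification -/
noncomputable def Ph (X : Dat) : (X.b →ₗ[ℝ] ℝ) ≃ₗ[ℝ] (X.C.b →ₗ[ℝ] ℝ) := (PE X).symm.dualMap

theorem Ph_apply (X : Dat) (ρ : X.b →ₗ[ℝ] ℝ) (c : X.C.b) : Ph X ρ c = ρ ((PE X).symm c) := rfl

theorem Ph_PE (X : Dat) (ρ : X.b →ₗ[ℝ] ℝ) (c : X.b) : Ph X ρ (PE X c) = ρ c := by
  rw [Ph_apply, LinearEquiv.symm_apply_apply]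

/-- the basis of the complexification -/
noncomputable def eC {X : Dat} (hX : MRB X) (p : hX.ι × Bool) :
    Matrix (Fin X.C.m) (Fin X.C.m) ℝ :=
  if p.2 = true then ci X.m (hX.e p.1) else cr X.m (hX.e p.1)

theorem eC_t {X : Dat} (hX : MRB X) (l : hX.ι) : eC hX (l, true) = ci X.m (hX.e l) := rfl

theorem eC_f {X : Dat} (hX : MRB X) (l : hX.ι) : eC hX (l, false) = cr X.m (hX.e l) := rfl

theorem rat_eC {X : Dat} (hX : MRB X) (p : hX.ι × Bool) (i j : Fin X.C.m) :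
    ∃ q : ℚ, eC hX p i j = (q : ℝ) := by
  obtain ⟨l, s⟩ := p
  cases s
  · rw [eC_f]
    exact cr_rat _ (hX.rat l) i j
  · rw [eC_t]
    exact ci_rat _ (hX.rat l) i j

theorem span_eC {X : Dat} (hX : MRB X) :
    Submodule.span ℝ (Set.range (eC hX)) = X.C.n := by
  apply le_antisymm
  · rw [Submodule.span_le]
    rintro _ ⟨⟨l, s⟩, rfl⟩
    have hl : hX.e l ∈ X.n := by
      rw [← hX.span_e]
      exact Submodule.subset_span ⟨l, rfl⟩
    cases s
    · exact ⟨hX.e l, hl, 0, X.n.zero_mem, rfl⟩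
    · exact ⟨0, X.n.zero_mem, hX.e l, hl, rfl⟩
  · rintro _ ⟨x, hx, y, hy, rfl⟩
    rw [← hX.span_e] at hx hy
    rw [blk_cx]
    refine Submodule.add_mem _ (span_map' _ ?_ hx) (span_map' _ ?_ hy)
    · rintro _ ⟨l, rfl⟩
      exact ⟨(l, false), rfl⟩
    · rintro _ ⟨l, rfl⟩
      exact ⟨(l, true), rfl⟩

theorem lin_eC {X : Dat} (hX : MRB X) : LinearIndependent ℝ (eC hX) := by
  rw [Fintype.linearIndependent_iff]
  intro g hg
  have h1 : ∑ p, g p • eC hX p =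
      cr X.m (∑ l, g (l, false) • hX.e l) + ci X.m (∑ l, g (l, true) • hX.e l) := by
    rw [Fintype.sum_prod_type, map_sum, map_sum, ← Finset.sum_add_distrib]
    refine Finset.sum_congr rfl fun l _ => ?_
    rw [Fintype.sum_bool, eC_t, eC_f, map_smul, map_smul, add_comm]
    rfl
  rw [h1] at hg
  obtain ⟨h2, h3⟩ := cri_zero hg
  have h4 := Fintype.linearIndependent_iff.1 hX.lin _ h2
  have h5 := Fintype.linearIndependent_iff.1 hX.lin _ h3
  rintro ⟨l, s⟩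
  cases s
  · exact h4 l
  · exact h5 l

theorem wt_eC {X : Dat} (hX : MRB X) (p : hX.ι × Bool) (c : X.C.b) :
    diagonal (c : Fin X.C.m → ℝ) * eC hX p - eC hX p * diagonal (c : Fin X.C.m → ℝ) =
      Ph X (hX.rt p.1) c • eC hX p := by
  obtain ⟨d, rfl⟩ := (PE X).surjective c
  rw [Ph_PE]
  have h1 : diagonal ((PE X d : X.C.b) : Fin X.C.m → ℝ) =
    cr X.m (diagonal (d : Fin X.m → ℝ)) := (cr_diag _).symm
  obtain ⟨l, s⟩ := p
  cases s
  · have h2 := cr_cr (diagonal (d : Fin X.m → ℝ)) (hX.e l)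
    rw [hX.wt l d, map_smul] at h2
    rw [h1]
    exact h2
  · have h2 := cr_ci (diagonal (d : Fin X.m → ℝ)) (hX.e l)
    rw [hX.wt l d, map_smul] at h2
    rw [h1]
    exact h2

theorem Ph_np {X : Dat} {ρ σ : X.b →ₗ[ℝ] ℝ} :
    (∀ c : ℝ, Ph X ρ ≠ c • Ph X σ) ↔ ∀ c : ℝ, ρ ≠ c • σ := by
  constructor
  · intro h c hc
    exact h c (by rw [hc, map_smul])
  · intro h c hc
    rw [← map_smul] at hc
    exact h c ((Ph X).injective hc)

/-- **Row MCX.** -/
theorem mcx : McxStmt := by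
  intro X hX hr
  have hPh : ∀ {ρ σ : X.b →ₗ[ℝ] ℝ}, Ph X ρ = Ph X σ → ρ = σ := fun h => (Ph X).injective h
  refine ⟨{
    ι := hX.ι × Bool
    fin := inferInstance
    dec := inferInstance
    e := eC hX
    rat := rat_eC hX
    span_e := span_eC hX
    lin := lin_eC hX
    rt := fun p => Ph X (hX.rt p.1)
    wt := wt_eC hX
    pos := ?_
    sep := ?_
    ray := ?_
    gen := ?_
    J := hX.J
    comp := fun p => hX.comp p.1
    top := fun j => (hX.top j, false)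
    comp_top := fun p => hX.comp_top p.1
    comp_rt := ?_
    climb := ?_
    rank1 := ?_
    scal := ?_ }⟩
  · obtain ⟨a, ha⟩ := hX.pos
    refine ⟨PE X a, fun p => ?_⟩
    rw [Ph_PE]
    exact ha p.1
  · intro a ha
    have h1 : (PE X).symm a = 0 := hX.sep _ fun l => ha (l, false)
    exact (LinearEquiv.map_eq_zero_iff (PE X).symm).1 h1
  · intro l l' c hc
    rw [← map_smul] at hc
    exact hX.ray l.1 l'.1 c (hPh hc)
  · intro t s l l' hn p q hp hq hs ht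
    have h1 : hX.rt s.1 = (p : ℝ) • hX.rt l.1 + (q : ℝ) • hX.rt l'.1 := by
      rw [← map_smul, ← map_smul, ← map_add] at hs
      exact hPh hs
    have h2 : ∃ c : ℝ, hX.rt t.1 = c • hX.rt s.1 := by
      obtain ⟨c, hc⟩ := ht
      rw [← map_smul] at hc
      exact ⟨c, hPh hc⟩
    have h3 := hX.gen t.1 s.1 l.1 l'.1 (Ph_np.1 hn) p q hp hq h1 h2
    obtain ⟨t, b⟩ := t
    cases b
    · rw [eC_f]
      refine span_map' _ ?_ h3
      rintro _ ⟨w, w', hw, hww, rfl⟩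
      refine ⟨(w, false), (w', false), Ph_np.2 hw, ?_, ?_⟩
      · show Ph X (hX.rt w) + Ph X (hX.rt w') = Ph X (hX.rt t)
        rw [← hww, map_add]
      · exact (cr_cr _ _).symm
    · rw [eC_t]
      refine span_map' _ ?_ h3
      rintro _ ⟨w, w', hw, hww, rfl⟩
      refine ⟨(w, true), (w', false), Ph_np.2 hw, ?_, ?_⟩
      · show Ph X (hX.rt w) + Ph X (hX.rt w') = Ph X (hX.rt t)
        rw [← hww, map_add]
      · exact (ci_cr _ _).symm
  · intro l l' c hc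
    rw [← map_smul] at hc
    exact hX.comp_rt l.1 l'.1 c (hPh hc)
  · intro l hl x hx hk
    have hl' : hX.rt l.1 ≠ hX.rt (hX.top (hX.comp l.1)) := fun h0 => hl (congrArg (Ph X) h0)
    obtain ⟨a, ha, b, hb, rfl⟩ := dec_aux hX.e (eC hX) (eC_f hX) (eC_t hX)
      (fun k => Ph X (hX.rt k) = Ph X (hX.rt l.1)) x hx
    have hQ : {k | Ph X (hX.rt k) = Ph X (hX.rt l.1)} = {k | hX.rt k = hX.rt l.1} := by
      ext k
      exact ⟨fun h => hPh h, fun h => congrArg (Ph X) h⟩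
    rw [hQ] at ha hb
    have key : ∀ k, (∀ c : ℝ, hX.rt k ≠ c • hX.rt l.1) →
        a * hX.e k - hX.e k * a = 0 ∧ b * hX.e k - hX.e k * b = 0 := by
      intro k hkk
      exact climb_aux (hk (k, false) (Ph_np.2 hkk))
    have ha0 : a = 0 := hX.climb l.1 hl' a ha fun k hkk => (key k hkk).1
    have hb0 : b = 0 := hX.climb l.1 hl' b hb fun k hkk => (key k hkk).2
    exact cri_zero' ha0 hb0
  · intro l hl
    obtain ⟨l', h1, h2⟩ := hr l.1
    exact absurd (hPh (hl (l', false) h1)) h2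
  · intro κ hκ
    obtain ⟨S, hS⟩ := hX.scal κ hκ
    refine ⟨(PE X).toLinearMap.comp (S.comp (PE X).symm.toLinearMap), fun l a => ?_⟩
    show Ph X (hX.rt l.1) (PE X (S ((PE X).symm a))) = κ (hX.comp l.1) * hX.rt l.1 ((PE X).symm a)
    rw [Ph_PE, hS]

end Pool.Agent.QSB.H16C
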